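import Pool.Agent.Helper50.LF.Names
import Pool.Agent.Helper32.FR.Defs

/-!
# Project LF (MP_743798_lc): the second scale (definitions of modules LF-8 and LF-9)
-/

set_option autoImplicit false
set_option linter.unusedSectionVars false

namespace Pool.Agent.Helper50.LF

open Pool.Agent.Helper33.HM Pool.Agent.Helper94.BA

section Gen

variable {B : Type 1} [CompleteBooleanAlgebra B] {c : Ordinal.{0} → ℕ → B}

section Second

variable {Ω : Type} [LinearOrder Ω] {a : Ω → ℕ → B} {br : Ω → B}

/-- The name of the function with the values `2 m + 1` for `m` in the set with index `s` and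
`2 m + 2` otherwise. -/
def hT (a : Ω → ℕ → B) (s : Ω) (m k : ℕ) : B :=
  if 2 * m + 2 ≤ k then ⊤ else if 2 * m + 1 ≤ k then a s m else ⊥

/-- The index set of the second scale. -/
abbrev JH (Ω : Type) : Type 1 := Ω ⊕ₗ Ordinal.{0}

/-- The weights of the second scale. -/
def wH (br : Ω → B) (j : JH Ω) : B := Sum.elim (fun s => br s) (fun _ => ⊤) (ofLex j)

/-- The members of the second scale. -/
def gH (a : Ω → ℕ → B) (c : Ordinal.{0} → ℕ → B) (j : JH Ω) : ℕ → ℕ → B :=
  Sum.elim (fun s => hT a s) (fun i => decV (c i)) (ofLex j)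

end Second

end Gen

end Pool.Agent.Helper50.LF
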