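import Pool.Agent.Helper36.LF.HDefs
import Pool.Agent.Helper63.LF.Dom
import Pool.Agent.Helper82.BA.Coding

/-!
# Project LF (MP_743798_lc), module LF-8: the second scale
-/

set_option autoImplicit false
set_option linter.unusedSectionVars false

namespace Pool.Agent.Helper50.LF

open Pool.Agent.Helper33.HM Pool.Agent.Helper94.BA
open Pool.Agent.Helper32.FR (wt nd PN okV avV lsV valV incV accS accV piV Scale Bdg OmOne FT aT brN PB)

section Gen

variable {B : Type 1} [CompleteBooleanAlgebra B] {c : Ordinal.{0} → ℕ → B}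

section Second

variable {Ω : Type} [LinearOrder Ω] {a : Ω → ℕ → B} {br : Ω → B}

/-! ### Calculus -/

theorem h36_himp_compl (x y : B) : (x ⊓ yᶜ)ᶜ ≤ x ⇨ y := by
  rw [le_himp_iff, compl_inf, compl_compl, inf_sup_right, compl_inf_self, bot_sup_eq]
  exact inf_le_left

theorem h36_himp_compl' (x y : B) : (x ⇨ y) ≤ (x ⊓ yᶜ)ᶜ := by
  rw [compl_inf, compl_compl, himp_eq, sup_comm]

theorem h36_leStar_le {f g : ℕ → ℕ → B} {x : ℕ → B}
    (h : ∀ n k, (x n)ᶜ ≤ g n k ⇨ f n k) : finV x ≤ leStar f g := by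
  unfold finV leStar
  refine iSup_mono fun m => iInf_mono fun n => iInf_mono fun _ => le_iInf fun k => h n k

theorem h36_leStar_top {f g : ℕ → ℕ → B} (h : ∀ n k, g n k ≤ f n k) : leStar f g = ⊤ := by
  refine top_le_iff.1 ?_
  unfold leStar
  refine le_iSup_of_le 0 (le_iInf fun n => le_iInf fun _ => le_iInf fun k => ?_)
  rw [himp_eq_top_iff.2 (h n k)]

theorem h36_leStar_le_finV {f g : ℕ → ℕ → B} {x : ℕ → B} (q : ℕ → ℕ)
    (h : ∀ n, (g n (q n) ⇨ f n (q n)) ≤ (x n)ᶜ) : leStar f g ≤ finV x := by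
  unfold finV leStar
  refine iSup_mono fun m => iInf_mono fun n => iInf_mono fun _ => ?_
  exact (iInf_le _ (q n)).trans (h n)

theorem h36_leStar_bot {f g : ℕ → ℕ → B} (q : ℕ → ℕ) (h1 : ∀ n, g n (q n) = ⊤)
    (h2 : ∀ n, f n (q n) = ⊥) : leStar f g = ⊥ := by
  refine le_bot_iff.1 ?_
  unfold leStar
  refine iSup_le fun m => (iInf_le _ m).trans ((iInf_le _ le_rfl).trans ((iInf_le _ (q m)).trans ?_))
  rw [h1, h2, top_himp]

/-! ### The functions `hT` -/

theorem h36_hT_top (s : Ω) {m k : ℕ} (h : 2 * m + 2 ≤ k) : hT a s m k = ⊤ := by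
  unfold hT
  rw [if_pos h]

theorem h36_hT_mid (s : Ω) (m : ℕ) : hT a s m (2 * m + 1) = a s m := by
  unfold hT
  rw [if_neg (by omega), if_pos le_rfl]

theorem h36_hT_bot (s : Ω) {m k : ℕ} (h : k < 2 * m + 1) : hT a s m k = ⊥ := by
  unfold hT
  rw [if_neg (by omega), if_neg (by omega)]

theorem h36_hT_fn (s : Ω) : IsFn Set.univ (hT a s) where
  mem _ _ := trivial
  mono n k := by
    rcases lt_trichotomy k (2 * n + 1) with h | h | h
    · rw [h36_hT_bot s h]
      exact bot_le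
    · rw [h36_hT_top s (k := k + 1) (by omega)]
      exact le_top
    · rw [h36_hT_top s (k := k + 1) (by omega)]
      exact le_top
  tot n := top_le_iff.1 (le_iSup_of_le (2 * n + 2) (h36_hT_top s le_rfl).ge)

theorem h36_hT_inc (s : Ω) (m k : ℕ) : hT a s (m + 1) k ≤ ⨆ i : ℕ, ⨆ _ : i < k, hT a s m i := by
  rcases lt_or_ge k (2 * (m + 1) + 1) with h | h
  · rw [h36_hT_bot s h]
    exact bot_le
  · refine le_iSup_of_le (2 * m + 2) (le_iSup_of_le (by omega) ?_)
    rw [h36_hT_top s le_rfl]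
    exact le_top

theorem h36_hT_le (x y : Ω) : finV (a y ⊓ (a x)ᶜ) ≤ leStar (hT a x) (hT a y) := by
  refine h36_leStar_le fun n k => ?_
  rcases lt_trichotomy k (2 * n + 1) with h | h | h
  · rw [h36_hT_bot y h, bot_himp]
    exact le_top
  · subst h
    rw [h36_hT_mid, h36_hT_mid]
    exact h36_himp_compl _ _
  · rw [h36_hT_top x (by omega), himp_top]
    exact le_top

theorem h36_hT_le' (x y : Ω) : leStar (hT a y) (hT a x) ≤ finV (a x ⊓ (a y)ᶜ) := by
  refine h36_leStar_le_finV (fun n => 2 * n + 1) fun n => ?_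
  rw [h36_hT_mid, h36_hT_mid]
  exact h36_himp_compl' _ _

theorem h36_hT_lin (s : Ω) : leStar (hT a s) (linV : ℕ → ℕ → B) = ⊤ := by
  refine h36_leStar_top fun n k => ?_
  unfold linV
  split_ifs with h
  · rw [h36_hT_top s (by omega)]
  · exact bot_le

theorem h36_lin_hT (s : Ω) : leStar (linV : ℕ → ℕ → B) (hT a s) = ⊥ := by
  refine h36_leStar_bot (fun n => 2 * n + 2) (fun n => h36_hT_top s le_rfl) fun n => ?_
  unfold linV
  rw [if_neg (by omega)]

/-! ### The second scale -/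

theorem h36_wf (hΩ : WellFoundedLT Ω) : WellFoundedLT (JH Ω) := by
  refine ⟨?_⟩
  have h := Sum.lex_wf hΩ.wf (wellFounded_lt : WellFounded ((· < ·) : Ordinal.{0} → Ordinal.{0} → Prop))
  refine Subrelation.wf ?_ (InvImage.wf (ofLex : JH Ω → Ω ⊕ Ordinal.{0}) h)
  intro x y hxy
  exact hxy

theorem h36_small (j : JH Ω) : Small.{0} (Set.Iio j) := by
  have hr : Small.{0} (Set.range (fun s : Ω => (Sum.inlₗ s : JH Ω))) := small_range _
  rcases j with s | i
  · refine small_subset (s := Set.range (fun s : Ω => (Sum.inlₗ s : JH Ω))) ?_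
    intro x hx
    rcases x with t | i
    · exact ⟨t, rfl⟩
    · exact absurd hx (Sum.Lex.not_inr_lt_inl)
  · have h2 : Small.{0} ((fun i : Ordinal.{0} => (Sum.inrₗ i : JH Ω)) '' Set.Iio i) := small_image _ _
    have h3 := small_union (Set.range (fun s : Ω => (Sum.inlₗ s : JH Ω)))
      ((fun i : Ordinal.{0} => (Sum.inrₗ i : JH Ω)) '' Set.Iio i)
    refine small_subset (s := Set.range (fun s : Ω => (Sum.inlₗ s : JH Ω)) ∪
      (fun i : Ordinal.{0} => (Sum.inrₗ i : JH Ω)) '' Set.Iio i) ?_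
    intro x hx
    rcases x with t | k
    · exact Or.inl ⟨t, rfl⟩
    · exact Or.inr ⟨k, Sum.Lex.inr_lt_inr_iff.1 hx, rfl⟩

theorem scaleH (hccc : CCC B) (hb : Bdg B) (hc : Scale c) (hl : ∀ β, leStar linV (decV (c β)) = ⊤)
    (ht : Twr a br) : WScale (wH br) (gH a c) where
  wf := h36_wf ht.wf
  small := h36_small
  fn j := by
    rcases j with s | i
    · exact h36_hT_fn s
    · exact decV_isFn (c i)
  inc j m k := by
    rcases j with s | i
    · exact h36_hT_inc s m k
    · have h := hc.inc i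
      have h1 : (⊤ : B) ≤ decV (c i) (m + 1) k ⇨ ⨆ i' : ℕ, ⨆ _ : i' < k, decV (c i) m i' := by
        rw [← h]
        exact (iInf_le _ m).trans (iInf_le _ k)
      rw [le_himp_iff, top_inf_eq] at h1
      exact h1
  le j j' hj := by
    rcases j with s | i <;> rcases j' with t | k
    · have hst : s < t := Sum.Lex.inl_lt_inl_iff.1 hj
      exact (ht.dec s t hst).trans (h36_hT_le s t)
    · have h1 : leStar (hT a s) (decV (c k)) = ⊤ := by
        refine top_le_iff.1 ?_
        have := leStar_trans (hT a s) linV (decV (c k))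
        rw [h36_hT_lin, hl, inf_top_eq] at this
        exact this
      exact le_top.trans h1.ge
    · exact absurd hj Sum.Lex.not_inr_lt_inl
    · exact le_top.trans (hc.mono i k (Sum.Lex.inr_lt_inr_iff.1 hj)).ge
  nle j j' hj := by
    rcases j with s | i <;> rcases j' with t | k
    · have hst : s < t := Sum.Lex.inl_lt_inl_iff.1 hj
      refine le_bot_iff.1 (le_trans ?_ (ht.str s t hst).le)
      exact inf_le_inf_left _ (h36_hT_le' s t)
    · have h1 : leStar (decV (c k)) (hT a s) = ⊥ := by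
        refine le_bot_iff.1 ?_
        have := leStar_trans linV (decV (c k)) (hT a s)
        rw [h36_lin_hT, hl, top_inf_eq] at this
        exact this
      exact le_bot_iff.1 (inf_le_right.trans h1.le)
    · exact absurd hj Sum.Lex.not_inr_lt_inl
    · exact le_bot_iff.1 (inf_le_right.trans (hc.strict i k (Sum.Lex.inr_lt_inr_iff.1 hj)).le)
  dom ι φ hφ := by
    obtain ⟨γ, -, hγ⟩ := exists_dom hccc hb hc 0 ι φ hφ
    exact ⟨(Sum.inrₗ γ : JH Ω), rfl, hγ⟩
  root j n := by
    rcases j with s | i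
    · obtain ⟨γ, -, hγ⟩ := hc.root 0 n
      refine top_le_iff.1 (le_iSup_of_le (Sum.inrₗ γ : JH Ω) (le_iSup_of_le ?_ ?_))
      · exact (Sum.Lex.inl_lt_inr s γ).le
      · show (⊤ : B) ≤ ⊤ ⊓ (decV (c γ) 0 n)ᶜ
        rw [hγ, compl_bot, inf_top_eq]
    · obtain ⟨γ, h1, hγ⟩ := hc.root i n
      refine top_le_iff.1 (le_iSup_of_le (Sum.inrₗ γ : JH Ω) (le_iSup_of_le ?_ ?_))
      · exact Sum.Lex.inr_le_inr_iff.2 h1
      · show (⊤ : B) ≤ ⊤ ⊓ (decV (c γ) 0 n)ᶜ
        rw [hγ, compl_bot, inf_top_eq]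

end Second

end Gen

end Pool.Agent.Helper50.LF
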